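import Mathlib

/-!
# Counterexamples to the `t`-adic Littlewood conjecture with small growth functions: definitions of the statement
-/

open Polynomial Finset

namespace Pool.H62.MV.FullDimension

section Laurent

variable (F : Type*) [Field F]

/-- The unit ball `𝕀`: elements of `K = F((t⁻¹))` with only negative powers of `t`.  Throughout,
`K` is the field of Laurent series over `F` in the variable `t⁻¹`, so that `Φ.coeff n` is the
coefficient of `t^(-n)` in `Φ`. -/
def II : Type _ := {Φ : LaurentSeries F // ∀ n : ℤ, n ≤ 0 → Φ.coeff n = 0}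

variable {F}

open Classical in
/-- The absolute value `|Φ| = q ^ deg Φ` on `K`, where `deg Φ` is the largest exponent of `t` with
nonzero coefficient, that is minus the order in `t⁻¹`; `|0| = 0`. -/
noncomputable def absK [Fintype F] (Φ : LaurentSeries F) : ℝ :=
  if Φ = 0 then 0 else (Fintype.card F : ℝ) ^ (-Φ.order)

/-- The embedding `F[t] → K`, the evaluation at `t`, which is the series `(t⁻¹)^(-1)`. -/
noncomputable def polyK (N : F[X]) : LaurentSeries F :=
  N.eval₂ HahnSeries.C (HahnSeries.single (-1 : ℤ) (1 : F))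

/-- The fractional part `⟨Φ⟩`: the sum of the terms in negative powers of `t`. -/
noncomputable def fracK (Φ : LaurentSeries F) : LaurentSeries F := Φ - HahnSeries.truncLT 1 Φ

/-- `|N|_t = q ^ (-v)`, where `t ^ v` is the largest power of `t` dividing `N`. -/
noncomputable def absT [Fintype F] (N : F[X]) : ℝ :=
  (Fintype.card F : ℝ) ^ (-(N.natTrailingDegree : ℤ))

theorem card_gt_one [Fintype F] : (1 : ℝ) < Fintype.card F := by
  exact_mod_cast Fintype.one_lt_card

theorem absK_nonneg [Fintype F] (Φ : LaurentSeries F) : 0 ≤ absK Φ := by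
  unfold absK
  split_ifs
  · exact le_rfl
  · positivity

theorem absK_eq_zero_iff [Fintype F] (Φ : LaurentSeries F) : absK Φ = 0 ↔ Φ = 0 := by
  have hq := card_gt_one (F := F)
  unfold absK
  split_ifs with h
  · simp [h]
  · simp only [h, iff_false]
    positivity

theorem absK_eq [Fintype F] {Φ : LaurentSeries F} (h : Φ ≠ 0) :
    absK Φ = (Fintype.card F : ℝ) ^ (-Φ.order) := by
  simp [absK, h]

theorem absK_add_le [Fintype F] (Φ Ψ : LaurentSeries F) : absK (Φ + Ψ) ≤ max (absK Φ) (absK Ψ) := by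
  by_cases h : Φ + Ψ = 0
  · rw [(absK_eq_zero_iff _).mpr h]
    exact le_max_of_le_left (absK_nonneg _)
  · have hne : (Φ + Ψ).coeff (Φ + Ψ).order ≠ 0 := fun h0 => h (HahnSeries.coeff_order_eq_zero.mp h0)
    have hlt : ¬ (Φ.coeff (Φ + Ψ).order = 0 ∧ Ψ.coeff (Φ + Ψ).order = 0) := by
      rintro ⟨h1, h2⟩
      apply hne
      rw [HahnSeries.coeff_add, h1, h2, add_zero]
    rw [absK_eq h, le_max_iff]
    by_contra hcon
    push Not at hcon
    apply hlt
    have hq := card_gt_one (F := F)
    have aux : ∀ Φ' : LaurentSeries F, absK Φ' < (Fintype.card F : ℝ) ^ (-(Φ + Ψ).order) →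
        Φ'.coeff (Φ + Ψ).order = 0 := by
      intro Φ' hlt'
      by_cases h0 : Φ' = 0
      · simp [h0]
      · rw [absK_eq h0, zpow_lt_zpow_iff_right₀ hq, neg_lt_neg_iff] at hlt'
        exact HahnSeries.coeff_eq_zero_of_lt_order hlt'
    exact ⟨aux Φ hcon.1, aux Ψ hcon.2⟩

theorem absK_neg [Fintype F] (Φ : LaurentSeries F) : absK (-Φ) = absK Φ := by
  by_cases h : Φ = 0
  · subst h
    simp
  · rw [absK_eq h, absK_eq (neg_ne_zero.mpr h), HahnSeries.order_neg]

/-- The metric `|Θ - Φ|` on `𝕀`. -/
noncomputable instance instMetricII [Fintype F] : MetricSpace (II F) where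
  dist Θ Φ := absK (Θ.1 - Φ.1)
  dist_self Θ := by simp [absK]
  dist_comm Θ Φ := by
    rw [← absK_neg, neg_sub]
  dist_triangle Θ Φ Ψ := by
    have h := absK_add_le (Θ.1 - Φ.1) (Φ.1 - Ψ.1)
    rw [sub_add_sub_cancel] at h
    refine h.trans ?_
    exact max_le_add_of_nonneg (absK_nonneg _) (absK_nonneg _)
  eq_of_dist_eq_zero {Θ Φ} h := by
    have h' : absK (Θ.1 - Φ.1) = 0 := h
    rw [absK_eq_zero_iff, sub_eq_zero] at h'
    exact Subtype.ext h'

/-- The set `M_q(f)` of counterexamples to the `t`-adic Littlewood conjecture with growth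
function `f`; here `f k` stands for the value of the growth function at `q ^ k`. -/
def M (F : Type*) [Field F] [Fintype F] (f : ℕ → ℝ) : Set (II F) :=
  {Θ | 0 < ⨅ N : {N : F[X] // N ≠ 0},
    f N.1.natDegree * absK (polyK N.1) * absT N.1 * absK (fracK (polyK N.1 * Θ.1))}

/-- The growth function `f_lam`: `f_lam (q ^ k) = k ^ (1 + lam)` for `k ≥ 1` and `f_lam (1) = 1`. -/
noncomputable def growth (lam : ℝ) (k : ℕ) : ℝ := if k = 0 then 1 else (k : ℝ) ^ (1 + lam)

end Laurent

end Pool.H62.MV.FullDimension
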