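import Mathlib
import Pool.Agent.H62.MV.FullDimensionDefs

/-!
# Counterexamples to the `t`-adic Littlewood conjecture with small growth functions: the proof
-/

open Polynomial Finset

namespace Pool.H62.MV.FullDimension

section Recurrence

variable {F : Type*} [Field F]

/-- The shift `(E s)(i) = s (i+1)` on sequences. -/
def shift : (ℕ → F) →ₗ[F] (ℕ → F) where
  toFun s := fun i => s (i + 1)
  map_add' _ _ := rfl
  map_smul' _ _ := rfl

theorem shift_pow_apply (j : ℕ) (s : ℕ → F) (i : ℕ) :
    ((shift : Module.End F (ℕ → F)) ^ j) s i = s (i + j) := by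
  induction j generalizing s i with
  | zero => simp
  | succ j ih =>
    rw [pow_succ]
    change ((shift : Module.End F (ℕ → F)) ^ j) (shift s) i = _
    rw [ih]
    change s (i + j + 1) = _
    rfl

/-- The polynomial `c` in the shift, applied to the sequence `s`. -/
noncomputable def act (c : F[X]) (s : ℕ → F) : ℕ → F :=
  (Polynomial.aeval (shift : Module.End F (ℕ → F)) c) s

theorem act_apply (c : F[X]) (s : ℕ → F) (i : ℕ) :
    act c s i = ∑ j ∈ range (c.natDegree + 1), c.coeff j * s (i + j) := by
  unfold act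
  rw [Polynomial.aeval_eq_sum_range]
  simp only [LinearMap.sum_apply, LinearMap.smul_apply, Finset.sum_apply, Pi.smul_apply,
    smul_eq_mul]
  exact Finset.sum_congr rfl fun j _ => by rw [shift_pow_apply]

theorem act_mul (c d : F[X]) (s : ℕ → F) : act (c * d) s = act c (act d s) := by
  unfold act
  rw [map_mul]
  rfl

theorem act_sub (c d : F[X]) (s : ℕ → F) : act (c - d) s = act c s - act d s := by
  unfold act
  rw [map_sub]
  rfl

theorem act_C_mul (a : F) (c : F[X]) (s : ℕ → F) (i : ℕ) : act (C a * c) s i = a * act c s i := by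
  unfold act
  rw [map_mul, aeval_C]
  rfl

/-- The rows `v ≤ i < v + m` of `c` vanish on `s`. -/
def Ann (c : F[X]) (s : ℕ → F) (v m : ℕ) : Prop := ∀ i, v ≤ i → i < v + m → act c s i = 0

theorem act_congr {c : F[X]} {s s' : ℕ → F} {i : ℕ} (h : ∀ k, i ≤ k → k ≤ i + c.natDegree → s k = s' k) :
    act c s i = act c s' i := by
  rw [act_apply, act_apply]
  refine Finset.sum_congr rfl fun j hj => ?_
  rw [mem_range] at hj
  rw [h (i + j) (by omega) (by omega)]

/-- If `c` is monic, a vanishing row determines the last digit. -/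
theorem digit_of_act_eq_zero {c : F[X]} (hc : c.Monic) {s : ℕ → F} {i : ℕ} (h : act c s i = 0) :
    s (i + c.natDegree) = - ∑ j ∈ range c.natDegree, c.coeff j * s (i + j) := by
  rw [act_apply, Finset.sum_range_succ, Monic.coeff_natDegree hc, one_mul] at h
  rw [eq_neg_iff_add_eq_zero, add_comm]
  exact h

/-- Minimal degree annihilators of many rows are the only annihilators of the first rows. -/
theorem le_natDegree_of_minimal {c : F[X]} (hc : c.Monic) {s : ℕ → F} {v m : ℕ}
    (hm : c.natDegree ≤ m) (hann : Ann c s v m)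
    (hmin : ∀ d : F[X], d ≠ 0 → d.natDegree < c.natDegree → ¬ Ann d s v m)
    {d : F[X]} (hd : d ≠ 0) (hdann : Ann d s v c.natDegree) : c.natDegree ≤ d.natDegree := by
  by_contra hlt
  push Not at hlt
  apply hmin d hd hlt
  -- the rows of `d` satisfy the recurrence `c`
  have hrec : ∀ i, v ≤ i → i < v + (m - d.natDegree) → act c (act d s) i = 0 := by
    intro i hi1 hi2
    rw [← act_mul, mul_comm, act_mul, act_apply]
    refine Finset.sum_eq_zero fun j hj => ?_
    rw [mem_range] at hj
    rw [hann (i + j) (by omega) (by omega), mul_zero]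
  have key : ∀ k, ∀ i, v ≤ i → i < v + c.natDegree + k → i < v + c.natDegree + (m - d.natDegree) →
      act d s i = 0 := by
    intro k
    induction k with
    | zero =>
      intro i h1 h2 _
      exact hdann i h1 (by omega)
    | succ k ih =>
      intro i h1 h2 h3
      by_cases h : i < v + c.natDegree + k
      · exact ih i h1 h h3
      · have hi : i = (v + k) + c.natDegree := by omega
        rw [hi, digit_of_act_eq_zero hc (hrec (v + k) (by omega) (by omega))]
        rw [neg_eq_zero]
        refine Finset.sum_eq_zero fun j hj => ?_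
        rw [mem_range] at hj
        rw [ih (v + k + j) (by omega) (by omega) (by omega), mul_zero]
  intro i h1 h2
  exact key (m - d.natDegree) i h1 (by omega) (by omega)

/-- The window event: with `v = T - 2h`, there is exactly one monic `c` of degree `h` whose first
`h` rows (these use only the digits of index `< T`) vanish, and its next `L` rows vanish too. -/
def Window (T h L : ℕ) (s : ℕ → F) : Prop :=
  2 * h ≤ T ∧ ∃ c : F[X], c.Monic ∧ c.natDegree = h ∧
    (∀ d : F[X], d.Monic → d.natDegree = h → Ann d s (T - 2 * h) h → d = c) ∧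
    Ann c s (T - 2 * h) (h + L)

theorem window_local {T h L : ℕ} {s s' : ℕ → F} (hss : ∀ i, i < T + L → s i = s' i)
    (hw : Window T h L s) : Window T h L s' := by
  obtain ⟨hT, c, hc, hdeg, huniq, hann⟩ := hw
  refine ⟨hT, c, hc, hdeg, ?_, ?_⟩
  · intro d hd hdd hda
    refine huniq d hd hdd fun i h1 h2 => ?_
    rw [act_congr (s' := s')]
    · exact hda i h1 h2
    · intro k h3 h4
      exact hss k (by omega)
  · intro i h1 h2
    rw [← act_congr (s := s)]
    · exact hann i h1 h2
    · intro k h3 h4
      exact hss k (by omega)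

/-- Two sequences agreeing up to `T` and both having the window event agree up to `T + L`. -/
theorem window_determines {T h L : ℕ} {s s' : ℕ → F} (hss : ∀ i, i < T → s i = s' i)
    (hw : Window T h L s) (hw' : Window T h L s') : ∀ i, i < T + L → s i = s' i := by
  obtain ⟨hT, c, hc, hdeg, huniq, hann⟩ := hw
  obtain ⟨-, c', hc', hdeg', huniq', hann'⟩ := hw'
  have hcc : c' = c := by
    refine huniq c' hc' hdeg' fun i h1 h2 => ?_
    rw [act_congr (s' := s')]
    · exact hann' i h1 (by omega)
    · intro k h3 h4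
      exact hss k (by omega)
  subst hcc
  have key : ∀ k, ∀ i, i < T + k → i < T + L → s i = s' i := by
    intro k
    induction k with
    | zero =>
      intro i h1 _
      exact hss i (by omega)
    | succ k ih =>
      intro i h1 h2
      by_cases h : i < T + k
      · exact ih i h h2
      · have hi : i = (i - c'.natDegree) + c'.natDegree := by omega
        rw [hi, digit_of_act_eq_zero hc (hann (i - c'.natDegree) (by omega) (by omega)),
          digit_of_act_eq_zero hc (hann' (i - c'.natDegree) (by omega) (by omega))]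
        congr 1
        refine Finset.sum_congr rfl fun j hj => ?_
        rw [mem_range] at hj
        rw [ih (i - c'.natDegree + j) (by omega) (by omega)]
  intro i hi
  exact key L i (by omega) hi

/-- A polynomial annihilating many rows forces a window event. -/
theorem exists_window {s : ℕ → F} {L : ℕ → ℕ} (hL : Monotone L) {N : F[X]} (hN : N ≠ 0) {v : ℕ}
    (hann : Ann N s v (N.natDegree + L (v + 2 * N.natDegree))) :
    ∃ h T, Window T h (L T) s := by
  classical
  set m := N.natDegree + L (v + 2 * N.natDegree) with hm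
  have hex : ∃ h, ∃ d : F[X], d ≠ 0 ∧ d.natDegree = h ∧ Ann d s v m := ⟨_, N, hN, rfl, hann⟩
  obtain ⟨d, hd0, hdh, hdann⟩ := Nat.find_spec hex
  set h := Nat.find hex with hh
  have hhN : h ≤ N.natDegree := Nat.find_min' hex ⟨N, hN, rfl, hann⟩
  have hmin : ∀ e : F[X], e ≠ 0 → e.natDegree < h → ¬ Ann e s v m := by
    intro e he hlt hea
    exact Nat.find_min hex hlt ⟨e, he, rfl, hea⟩
  -- normalise
  set c : F[X] := C (d.leadingCoeff)⁻¹ * d with hcdef
  have hlc : d.leadingCoeff ≠ 0 := leadingCoeff_ne_zero.mpr hd0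
  have hcm : c.Monic := by
    rw [Monic, hcdef, leadingCoeff_mul, leadingCoeff_C, inv_mul_cancel₀ hlc]
  have hcdeg : c.natDegree = h := by
    rw [hcdef, natDegree_C_mul (inv_ne_zero hlc), hdh]
  have hcann : Ann c s v m := by
    intro i h1 h2
    rw [hcdef, act_C_mul, hdann i h1 h2, mul_zero]
  refine ⟨h, v + 2 * h, by omega, c, hcm, hcdeg, ?_, ?_⟩
  · intro e he hedeg heann
    by_contra hne
    have hsub : e - c ≠ 0 := sub_ne_zero.mpr hne
    have hlt : (e - c).natDegree < h := by
      rcases Nat.eq_zero_or_pos h with h0 | hpos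
      · exfalso
        apply hne
        have e1 : e = 1 := by
          rw [h0] at hedeg
          exact eq_one_of_monic_natDegree_zero he hedeg
        have e2 : c = 1 := by
          rw [h0] at hcdeg
          exact eq_one_of_monic_natDegree_zero hcm hcdeg
        rw [e1, e2]
      · have := degree_sub_lt_left (p := e) (q := c) (by
          rw [degree_eq_natDegree he.ne_zero, degree_eq_natDegree hcm.ne_zero, hedeg, hcdeg])
          he.ne_zero (by rw [he.leadingCoeff, hcm.leadingCoeff])
        rw [← hedeg]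
        exact natDegree_lt_natDegree hsub this
    have hsubann : Ann (e - c) s v c.natDegree := by
      intro i h1 h2
      rw [act_sub, Pi.sub_apply]
      rw [show v + 2 * h - 2 * h = v by omega] at heann
      rw [heann i h1 (by omega), hcann i h1 (by omega), sub_zero]
    have := le_natDegree_of_minimal hcm (v := v) (m := m) (by omega) hcann
      (by rw [hcdeg]; exact hmin) hsub hsubann
    omega
  · rw [show v + 2 * h - 2 * h = v by omega]
    intro i h1 h2
    refine hcann i h1 (lt_of_lt_of_le h2 ?_)
    have : L (v + 2 * h) ≤ L (v + 2 * N.natDegree) := hL (by omega)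
    omega

end Recurrence

section Words

variable {F : Type*} [Field F]

/-- Extension of a finite word by zeros. -/
def ext {n : ℕ} (w : Fin n → F) : ℕ → F := fun i => if h : i < n then w ⟨i, h⟩ else 0

/-- Restriction of a sequence to its first `n` digits. -/
def res (n : ℕ) (s : ℕ → F) : Fin n → F := fun i => s i

theorem res_ext {n : ℕ} (w : Fin n → F) : res n (ext w) = w := by
  funext i
  simp [res, ext]

theorem ext_res_apply {n : ℕ} (s : ℕ → F) {i : ℕ} (hi : i < n) : ext (res n s) i = s i := by
  simp [res, ext, hi]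

/-- The bad events: completed windows, or hitting a prescribed finite set of words. -/
def BadEv (L : ℕ → ℕ) (C : ∀ n, Finset (Fin n → F)) (m : ℕ) (s : ℕ → F) : Prop :=
  (∃ T h, T + L T = m ∧ Window T h (L T) s) ∨ res m s ∈ C m

/-- `Bad m` depends only on the first `m` digits. -/
def Local (Bad : ℕ → (ℕ → F) → Prop) : Prop :=
  ∀ m s s', (∀ i, i < m → s i = s' i) → Bad m s → Bad m s'

theorem badEv_local (L : ℕ → ℕ) (C : ∀ n, Finset (Fin n → F)) : Local (BadEv L C) := by
  intro m s s' hss hbad
  rcases hbad with ⟨T, h, hT, hw⟩ | hc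
  · exact Or.inl ⟨T, h, hT, window_local (fun i hi => hss i (by omega)) hw⟩
  · refine Or.inr ?_
    have : res m s' = res m s := by
      funext i
      exact (hss i i.2).symm
    rw [this]
    exact hc

end Words

section Counting

variable {F : Type*} [Field F] [Fintype F]

open Classical in
/-- Words of length `n` with no bad initial segment. -/
noncomputable def Gd (Bad : ℕ → (ℕ → F) → Prop) (n : ℕ) : Finset (Fin n → F) :=
  univ.filter fun w => ∀ m ≤ n, ¬ Bad m (ext w)

open Classical in
theorem card_step (Bad : ℕ → (ℕ → F) → Prop) (hloc : Local Bad) (n : ℕ) :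
    Fintype.card F * (Gd Bad n).card ≤ (Gd Bad (n + 1)).card +
      (univ.filter fun w : Fin (n + 1) → F =>
        (∀ m ≤ n, ¬ Bad m (ext w)) ∧ Bad (n + 1) (ext w)).card := by
  have h1 : Fintype.card F * (Gd Bad n).card ≤
      (univ.filter fun w : Fin (n + 1) → F => ∀ m ≤ n, ¬ Bad m (ext w)).card := by
    have e : Fintype.card F * (Gd Bad n).card = ((univ : Finset F) ×ˢ Gd Bad n).card := by
      rw [card_product, card_univ]
    rw [e]
    refine card_le_card_of_injOn (fun p => Fin.snoc (α := fun _ => F) p.2 p.1) ?_ ?_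
    · rintro ⟨a, w⟩ hw
      simp only [coe_product, coe_univ, Set.mem_prod, Set.mem_univ, true_and, mem_coe, Gd,
        mem_filter, mem_univ] at hw
      simp only [coe_filter, mem_univ, true_and, Set.mem_ofPred_eq]
      intro m hm hbad
      refine hw m hm (hloc m _ _ ?_ hbad)
      intro i hi
      have hin : i < n := by omega
      simp only [ext, hin, dif_pos, Nat.lt_succ_of_lt hin]
      have : (⟨i, Nat.lt_succ_of_lt hin⟩ : Fin (n + 1)) = Fin.castSucc ⟨i, hin⟩ := rfl
      rw [this, Fin.snoc_castSucc]
    · rintro ⟨a, w⟩ _ ⟨a', w'⟩ _ heq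
      simp only at heq
      have h2 := congrArg (fun f : Fin (n + 1) → F => f (Fin.last n)) heq
      have h3 := congrArg (fun f : Fin (n + 1) → F => fun i : Fin n => f i.castSucc) heq
      simp only [Fin.snoc_last, Fin.snoc_castSucc] at h2 h3
      have h3' : w = w' := h3
      rw [h2, h3']
  refine h1.trans ?_
  rw [← card_filter_add_card_filter_not (s := univ.filter fun w : Fin (n + 1) → F =>
    ∀ m ≤ n, ¬ Bad m (ext w)) (fun w => ¬ Bad (n + 1) (ext w))]
  apply add_le_add
  · apply card_le_card
    intro w hw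
    simp only [mem_filter, mem_univ, true_and, Gd] at hw ⊢
    intro m hm
    rcases Nat.lt_or_eq_of_le hm with h | h
    · exact hw.1 m (by omega)
    · rw [h]
      exact hw.2
  · apply card_le_card
    intro w hw
    simp only [mem_filter, mem_univ, true_and, not_not] at hw ⊢
    exact hw

open Classical in
theorem card_window (Bad : ℕ → (ℕ → F) → Prop) (hloc : Local Bad) (T h L : ℕ) {n : ℕ}
    (hn : n + 1 = T + L) (hL : 1 ≤ L) :
    (univ.filter fun w : Fin (n + 1) → F =>
        (∀ m ≤ n, ¬ Bad m (ext w)) ∧ Window T h L (ext w)).card ≤ (Gd Bad T).card := by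
  refine card_le_card_of_injOn (fun w => res T (ext w)) ?_ ?_
  · intro w hw
    simp only [coe_filter, mem_univ, true_and, Set.mem_ofPred_eq] at hw
    simp only [Gd, coe_filter, mem_univ, true_and, Set.mem_ofPred_eq]
    intro m hm hbad
    refine hw.1 m (by omega) (hloc m _ _ ?_ hbad)
    intro i hi
    exact ext_res_apply _ (by omega)
  · intro w hw w' hw' heq
    simp only [coe_filter, mem_univ, true_and, Set.mem_ofPred_eq] at hw hw'
    have hagree : ∀ i, i < T → ext w i = ext w' i := by
      intro i hi
      have := congrArg (fun f : Fin T → F => f ⟨i, hi⟩) heq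
      exact this
    have hall := window_determines hagree hw.2 hw'.2
    funext i
    have := hall i (by have := i.2; omega)
    simpa [ext, i.2] using this

/-- Rosenfeld's counting argument. -/
theorem growth_step (L : ℕ → ℕ) (hLmono : Monotone L) (hL1 : ∀ T, 1 ≤ L T)
    (C : ∀ n, Finset (Fin n → F)) (hC0 : C 0 = ∅) (β : ℝ) (hβ1 : 1 ≤ β)
    (hβq : β < Fintype.card F)
    (hW : ∀ T : ℕ, ((T / 2 + 1 : ℕ) : ℝ) ≤ (Fintype.card F - β) / 2 * β ^ (L T - 1))
    (hC : ∀ n, ((C (n + 1)).card : ℝ) ≤ (Fintype.card F - β) / 2 * β ^ n) (n : ℕ) :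
    β ^ n ≤ ((Gd (BadEv L C) n).card : ℝ) ∧
      ∀ T ≤ n, β ^ (n - T) * ((Gd (BadEv L C) T).card : ℝ) ≤ ((Gd (BadEv L C) n).card : ℝ) := by
  classical
  have hβ0 : 0 < β := by linarith
  induction n with
  | zero =>
    have h0 : (Gd (BadEv L C) 0).card = 1 := by
      have : Gd (BadEv L C) 0 = univ := by
        apply filter_true_of_mem
        intro w _ m hm hbad
        have hm0 : m = 0 := by omega
        subst hm0
        rcases hbad with ⟨T, h, hT, -⟩ | hc
        · have := hL1 T
          omega
        · rw [hC0] at hc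
          exact absurd hc (notMem_empty _)
      rw [this]
      simp
    refine ⟨by simp [h0], ?_⟩
    intro T hT
    have : T = 0 := by omega
    subst this
    simp
  | succ n ih =>
    obtain ⟨ih1, ih2⟩ := ih
    have hstep := card_step (BadEv L C) (badEv_local L C) n
    -- the window part
    have hwin : ((univ.filter fun w : Fin (n + 1) → F =>
        (∀ m ≤ n, ¬ BadEv L C m (ext w)) ∧
          ∃ T h, T + L T = n + 1 ∧ Window T h (L T) (ext w)).card : ℝ) ≤
        (Fintype.card F - β) / 2 * (Gd (BadEv L C) n).card := by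
      by_cases hex : ∃ T, T + L T = n + 1
      · obtain ⟨T, hT⟩ := hex
        have huniq : ∀ T', T' + L T' = n + 1 → T' = T := by
          intro T' hT'
          rcases lt_trichotomy T' T with h | h | h
          · have := hLmono h.le
            omega
          · exact h
          · have := hLmono h.le
            omega
        have hsub : (univ.filter fun w : Fin (n + 1) → F =>
            (∀ m ≤ n, ¬ BadEv L C m (ext w)) ∧
              ∃ T h, T + L T = n + 1 ∧ Window T h (L T) (ext w)) ⊆
            (range (T / 2 + 1)).biUnion fun h => univ.filter fun w : Fin (n + 1) → F =>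
              (∀ m ≤ n, ¬ BadEv L C m (ext w)) ∧ Window T h (L T) (ext w) := by
          intro w hw
          simp only [mem_filter, mem_univ, true_and] at hw
          obtain ⟨h1, T', h, hT', hwin⟩ := hw
          have := huniq T' hT'
          subst this
          simp only [mem_biUnion, mem_range, mem_filter, mem_univ, true_and]
          refine ⟨h, ?_, h1, hwin⟩
          have := hwin.1
          omega
        have hle : (univ.filter fun w : Fin (n + 1) → F =>
            (∀ m ≤ n, ¬ BadEv L C m (ext w)) ∧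
              ∃ T h, T + L T = n + 1 ∧ Window T h (L T) (ext w)).card ≤
            (T / 2 + 1) * (Gd (BadEv L C) T).card := by
          refine (card_le_card hsub).trans (card_biUnion_le.trans ?_)
          calc ∑ h ∈ range (T / 2 + 1), (univ.filter fun w : Fin (n + 1) → F =>
              (∀ m ≤ n, ¬ BadEv L C m (ext w)) ∧ Window T h (L T) (ext w)).card
              ≤ ∑ h ∈ range (T / 2 + 1), (Gd (BadEv L C) T).card :=
                sum_le_sum fun h _ => card_window _ (badEv_local L C) T h (L T) hT.symm (hL1 T)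
            _ = (T / 2 + 1) * (Gd (BadEv L C) T).card := by
                rw [sum_const, card_range, smul_eq_mul]
        have hTn : T ≤ n := by
          have := hL1 T
          omega
        have h3 := ih2 T hTn
        have h4 : n - T = L T - 1 := by omega
        rw [h4] at h3
        have h5 := hW T
        calc ((univ.filter fun w : Fin (n + 1) → F =>
            (∀ m ≤ n, ¬ BadEv L C m (ext w)) ∧
              ∃ T h, T + L T = n + 1 ∧ Window T h (L T) (ext w)).card : ℝ)
            ≤ ((T / 2 + 1 : ℕ) : ℝ) * (Gd (BadEv L C) T).card := by exact_mod_cast hle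
          _ ≤ ((Fintype.card F - β) / 2 * β ^ (L T - 1)) * (Gd (BadEv L C) T).card := by gcongr
          _ = (Fintype.card F - β) / 2 * (β ^ (L T - 1) * (Gd (BadEv L C) T).card) := by ring
          _ ≤ (Fintype.card F - β) / 2 * (Gd (BadEv L C) n).card := by
            apply mul_le_mul_of_nonneg_left h3
            linarith
      · have : (univ.filter fun w : Fin (n + 1) → F =>
            (∀ m ≤ n, ¬ BadEv L C m (ext w)) ∧
              ∃ T h, T + L T = n + 1 ∧ Window T h (L T) (ext w)) = ∅ := by
          apply filter_false_of_mem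
          rintro w - ⟨-, T, h, hT, -⟩
          exact hex ⟨T, hT⟩
        rw [this]
        simp only [card_empty, Nat.cast_zero]
        apply mul_nonneg
        · linarith
        · positivity
    have hcov : ((univ.filter fun w : Fin (n + 1) → F => res (n + 1) (ext w) ∈ C (n + 1)).card : ℝ)
        ≤ (Fintype.card F - β) / 2 * (Gd (BadEv L C) n).card := by
      have h1 : (univ.filter fun w : Fin (n + 1) → F => res (n + 1) (ext w) ∈ C (n + 1)).card ≤
          (C (n + 1)).card := by
        apply card_le_card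
        intro w hw
        simp only [mem_filter, mem_univ, true_and, res_ext] at hw
        exact hw
      calc ((univ.filter fun w : Fin (n + 1) → F => res (n + 1) (ext w) ∈ C (n + 1)).card : ℝ)
          ≤ (C (n + 1)).card := by exact_mod_cast h1
        _ ≤ (Fintype.card F - β) / 2 * β ^ n := hC n
        _ ≤ (Fintype.card F - β) / 2 * (Gd (BadEv L C) n).card := by
          apply mul_le_mul_of_nonneg_left ih1
          linarith
    have hbad : ((univ.filter fun w : Fin (n + 1) → F =>
        (∀ m ≤ n, ¬ BadEv L C m (ext w)) ∧ BadEv L C (n + 1) (ext w)).card : ℝ) ≤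
        (Fintype.card F - β) * (Gd (BadEv L C) n).card := by
      have hsub : (univ.filter fun w : Fin (n + 1) → F =>
          (∀ m ≤ n, ¬ BadEv L C m (ext w)) ∧ BadEv L C (n + 1) (ext w)) ⊆
          (univ.filter fun w : Fin (n + 1) → F =>
            (∀ m ≤ n, ¬ BadEv L C m (ext w)) ∧
              ∃ T h, T + L T = n + 1 ∧ Window T h (L T) (ext w)) ∪
          (univ.filter fun w : Fin (n + 1) → F => res (n + 1) (ext w) ∈ C (n + 1)) := by
        intro w hw
        simp only [mem_filter, mem_univ, true_and, mem_union] at hw ⊢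
        rcases hw.2 with h | h
        · exact Or.inl ⟨hw.1, h⟩
        · exact Or.inr h
      have h1 := (card_le_card hsub).trans (card_union_le _ _)
      have h2 : ((univ.filter fun w : Fin (n + 1) → F =>
        (∀ m ≤ n, ¬ BadEv L C m (ext w)) ∧ BadEv L C (n + 1) (ext w)).card : ℝ) ≤
        ((univ.filter fun w : Fin (n + 1) → F =>
            (∀ m ≤ n, ¬ BadEv L C m (ext w)) ∧
              ∃ T h, T + L T = n + 1 ∧ Window T h (L T) (ext w)).card : ℝ) +
        ((univ.filter fun w : Fin (n + 1) → F => res (n + 1) (ext w) ∈ C (n + 1)).card : ℝ) := by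
        exact_mod_cast h1
      linarith
    have hmain : β * ((Gd (BadEv L C) n).card : ℝ) ≤ ((Gd (BadEv L C) (n + 1)).card : ℝ) := by
      have h1 : (Fintype.card F : ℝ) * (Gd (BadEv L C) n).card ≤ (Gd (BadEv L C) (n + 1)).card +
        ((univ.filter fun w : Fin (n + 1) → F =>
        (∀ m ≤ n, ¬ BadEv L C m (ext w)) ∧ BadEv L C (n + 1) (ext w)).card : ℝ) := by
        exact_mod_cast hstep
      linarith
    refine ⟨?_, ?_⟩
    · rw [pow_succ]
      calc β ^ n * β ≤ (Gd (BadEv L C) n).card * β := by gcongr
        _ = β * (Gd (BadEv L C) n).card := mul_comm _ _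
        _ ≤ _ := hmain
    · intro T hT
      rcases Nat.lt_or_eq_of_le hT with h | h
      · have h1 := ih2 T (by omega)
        have h2 : n + 1 - T = (n - T) + 1 := by omega
        rw [h2, pow_succ]
        calc β ^ (n - T) * β * (Gd (BadEv L C) T).card
            = β * (β ^ (n - T) * (Gd (BadEv L C) T).card) := by ring
          _ ≤ β * (Gd (BadEv L C) n).card := by gcongr
          _ ≤ _ := hmain
      · rw [h]
        simp

/-- Compactness: there is an infinite sequence avoiding every bad event. -/
theorem exists_good_seq (Bad : ℕ → (ℕ → F) → Prop) (hloc : Local Bad)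
    (hne : ∀ n, (Gd Bad n).Nonempty) : ∃ s : ℕ → F, ∀ m, ¬ Bad m s := by
  classical
  let _ : TopologicalSpace F := ⊥
  have _ : DiscreteTopology F := ⟨rfl⟩
  let K : ℕ → Set (ℕ → F) := fun n => {s | ∀ m ≤ n, ¬ Bad m s}
  have hKeq : ∀ n, K n = (res n) ⁻¹' {w | ∀ m ≤ n, ¬ Bad m (ext w)} := by
    intro n
    ext s
    simp only [K, Set.mem_ofPred_eq, Set.mem_preimage]
    refine forall₂_congr fun m hm => not_congr ⟨fun h => hloc m _ _ ?_ h, fun h => hloc m _ _ ?_ h⟩
    · intro i hi
      exact (ext_res_apply s (by omega)).symm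
    · intro i hi
      exact ext_res_apply s (by omega)
  have hcont : ∀ n, Continuous (res (F := F) n) := fun n =>
    continuous_pi fun i => continuous_apply _
  have hclosed : ∀ n, IsClosed (K n) := by
    intro n
    rw [hKeq]
    exact (isClosed_discrete _).preimage (hcont n)
  have hnon : ∀ n, (K n).Nonempty := by
    intro n
    obtain ⟨w, hw⟩ := hne n
    simp only [Gd, mem_filter, mem_univ, true_and] at hw
    exact ⟨ext w, hw⟩
  have hanti : ∀ n, K (n + 1) ⊆ K n := fun n s hs m hm => hs m (by omega)
  obtain ⟨s, hs⟩ := IsCompact.nonempty_iInter_of_sequence_nonempty_isCompact_isClosed K hanti hnon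
    (hclosed 0).isCompact hclosed
  rw [Set.mem_iInter] at hs
  exact ⟨s, fun m => hs m m le_rfl⟩

end Counting

section Laurent

variable (F : Type*) [Field F]

variable {F}

theorem absK_le_iff [Fintype F] (Φ : LaurentSeries F) (n : ℤ) :
    absK Φ ≤ (Fintype.card F : ℝ) ^ (-n) ↔ ∀ i < n, Φ.coeff i = 0 := by
  have hq := card_gt_one (F := F)
  unfold absK
  split_ifs with h
  · subst h
    simp only [HahnSeries.coeff_zero, implies_true, iff_true]
    positivity
  · rw [zpow_le_zpow_iff_right₀ hq, neg_le_neg_iff]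
    constructor
    · intro hn i hi
      exact HahnSeries.coeff_eq_zero_of_lt_order (lt_of_lt_of_le hi hn)
    · intro hi
      by_contra hcon
      push Not at hcon
      exact h (HahnSeries.coeff_order_eq_zero.mp (hi _ hcon))

theorem dist_II_def [Fintype F] (Θ Φ : II F) : dist Θ Φ = absK (Θ.1 - Φ.1) := rfl

/-- The digits of an element of `𝕀`: `digits Θ i` is the coefficient of `t^(-(i+1))`. -/
def digits (Θ : II F) : ℕ → F := fun i => Θ.1.coeff ((i : ℤ) + 1)

theorem bddBelow_digits (s : ℕ → F) :
    BddBelow (Function.support fun n : ℤ => if 1 ≤ n then s (n - 1).toNat else 0) := by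
  refine ⟨1, ?_⟩
  intro m hm
  by_contra hlt
  exact hm (if_neg hlt)

/-- The element of `𝕀` with given digits. -/
noncomputable def ofDigits (s : ℕ → F) : II F :=
  ⟨HahnSeries.ofSuppBddBelow (fun n : ℤ => if 1 ≤ n then s (n - 1).toNat else 0)
    (bddBelow_digits s), fun n hn => by
    change (if 1 ≤ n then s (n - 1).toNat else 0) = 0
    exact if_neg (by omega)⟩

theorem digits_ofDigits (s : ℕ → F) : digits (ofDigits s) = s := by
  funext i
  change (if 1 ≤ (i : ℤ) + 1 then s ((i : ℤ) + 1 - 1).toNat else 0) = s i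
  rw [if_pos (by omega)]
  congr 1
  omega

theorem dist_le_iff [Fintype F] (Θ Φ : II F) (k : ℕ) :
    dist Θ Φ ≤ (Fintype.card F : ℝ) ^ (-((k : ℤ) + 1)) ↔ ∀ i < k, digits Θ i = digits Φ i := by
  rw [dist_II_def, absK_le_iff]
  constructor
  · intro h i hi
    have := h ((i : ℤ) + 1) (by omega)
    rw [HahnSeries.coeff_sub, sub_eq_zero] at this
    exact this
  · intro h i hi
    rw [HahnSeries.coeff_sub]
    by_cases hi0 : i ≤ 0
    · rw [Θ.2 i hi0, Φ.2 i hi0, sub_zero]
    · have := h (i - 1).toNat (by omega)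
      unfold digits at this
      have e : (((i - 1).toNat : ℕ) : ℤ) + 1 = i := by omega
      rw [e] at this
      rw [this, sub_self]

theorem coeff_polyK_mul (N : F[X]) (Φ : LaurentSeries F) (n : ℤ) :
    (polyK N * Φ).coeff n = ∑ j ∈ range (N.natDegree + 1), N.coeff j * Φ.coeff (n + j) := by
  have hpow : ∀ j : ℕ, (HahnSeries.single (-1 : ℤ) (1 : F)) ^ j = HahnSeries.single (-(j : ℤ)) 1 := by
    intro j
    rw [HahnSeries.single_pow]
    simp
  unfold polyK
  rw [Polynomial.eval₂_eq_sum_range, Finset.sum_mul, HahnSeries.coeff_sum]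
  refine Finset.sum_congr rfl fun j _ => ?_
  rw [hpow, HahnSeries.C_apply, HahnSeries.single_mul_single, HahnSeries.coeff_single_mul,
    mul_one, zero_add, sub_neg_eq_add]

theorem coeff_fracK (Φ : LaurentSeries F) (n : ℤ) :
    (fracK Φ).coeff n = if 1 ≤ n then Φ.coeff n else 0 := by
  unfold fracK
  rw [HahnSeries.coeff_sub]
  split_ifs with h
  · rw [HahnSeries.coeff_truncLT_of_le h, sub_zero]
  · rw [HahnSeries.coeff_truncLT_of_lt (by omega), sub_self]

/-- The rows of `N` on the digits of `Θ` are the digits of the fractional part of `N Θ`. -/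
theorem coeff_frac_mul (N : F[X]) (Θ : II F) (i : ℕ) :
    (fracK (polyK N * Θ.1)).coeff ((i : ℤ) + 1) = act N (digits Θ) i := by
  rw [coeff_fracK, if_pos (by omega), coeff_polyK_mul, act_apply]
  refine Finset.sum_congr rfl fun j _ => ?_
  unfold digits
  congr 2
  push_cast
  ring

theorem absK_polyK [Fintype F] {N : F[X]} (hN : N ≠ 0) :
    absK (polyK N) = (Fintype.card F : ℝ) ^ N.natDegree := by
  have hcoeff : ∀ n : ℤ, (polyK N).coeff n = if n ≤ 0 then N.coeff (-n).toNat else 0 := by
    intro n
    have h := coeff_polyK_mul N 1 n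
    rw [mul_one] at h
    rw [h]
    have h1 : ∀ m : ℤ, (1 : LaurentSeries F).coeff m = if m = 0 then 1 else 0 := by
      intro m
      rw [HahnSeries.coeff_one]
      split_ifs <;> rfl
    simp only [h1]
    split_ifs with hn
    · by_cases hle : (-n).toNat ≤ N.natDegree
      · rw [Finset.sum_eq_single (-n).toNat]
        · rw [if_pos (by omega), mul_one]
        · intro b _ hb
          rw [if_neg (by omega), mul_zero]
        · intro hnot
          rw [mem_range] at hnot
          omega
      · rw [coeff_eq_zero_of_natDegree_lt (by omega)]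
        refine Finset.sum_eq_zero fun j hj => ?_
        rw [mem_range] at hj
        rw [if_neg (by omega), mul_zero]
    · refine Finset.sum_eq_zero fun j hj => ?_
      rw [if_neg (by omega), mul_zero]
  have hne : (polyK N).coeff (-(N.natDegree : ℤ)) ≠ 0 := by
    rw [hcoeff, if_pos (by omega)]
    have : (-(-(N.natDegree : ℤ))).toNat = N.natDegree := by omega
    rw [this]
    exact leadingCoeff_ne_zero.mpr hN
  have hne0 : polyK N ≠ 0 := HahnSeries.ne_zero_of_coeff_ne_zero hne
  have hord : (polyK N).order = -(N.natDegree : ℤ) := by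
    apply le_antisymm
    · exact HahnSeries.order_le_of_coeff_ne_zero hne
    · by_contra hlt
      push Not at hlt
      apply hne0
      rw [← HahnSeries.coeff_order_eq_zero, hcoeff]
      split_ifs
      · apply coeff_eq_zero_of_natDegree_lt
        omega
      · rfl
  rw [absK_eq hne0, hord, neg_neg, zpow_natCast]

theorem act_eq_of_factor {N N' : F[X]} {v : ℕ} (h : N = N' * X ^ v) (s : ℕ → F) (i : ℕ) :
    act N s i = act N' s (v + i) := by
  have hX : ∀ (v : ℕ) (u : ℕ → F) (i : ℕ), act (X ^ v) u i = u (i + v) := by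
    intro v u i
    unfold act
    rw [map_pow, aeval_X, shift_pow_apply]
  rw [h, mul_comm, act_mul, hX, add_comm]

/-- Sequences without window events give elements of `M`. -/
theorem mem_M_of_no_window [Fintype F] (lam A : ℝ) (hlam : 0 < lam) (hA : 1 ≤ A) (L : ℕ → ℕ)
    (hLmono : Monotone L)
    (hLle : ∀ T : ℕ, (Fintype.card F : ℝ) ^ L T ≤ A * ((T : ℝ) + 1) ^ (1 + lam))
    (Θ : II F) (hno : ∀ T h, ¬ Window T h (L T) (digits Θ)) : Θ ∈ M F (growth lam) := by
  have hq := card_gt_one (F := F)
  have hq0 : (0 : ℝ) < Fintype.card F := by linarith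
  have h3 : (0 : ℝ) < 3 ^ (1 + lam) := by positivity
  have hc : 0 < 1 / (Fintype.card F * (A * 3 ^ (1 + lam)) : ℝ) := by positivity
  have hN1 : Nonempty {N : F[X] // N ≠ 0} := ⟨⟨1, one_ne_zero⟩⟩
  refine lt_of_lt_of_le hc (le_ciInf ?_)
  rintro ⟨N, hN⟩
  simp only
  set v := N.natTrailingDegree with hv
  obtain ⟨N', hN'⟩ : X ^ v ∣ N := by
    rw [X_pow_dvd_iff]
    intro d hd
    exact coeff_eq_zero_of_lt_natTrailingDegree hd
  have hN'0 : N' ≠ 0 := by
    rintro rfl
    rw [mul_zero] at hN'
    exact hN hN'
  have hdeg : N.natDegree = v + N'.natDegree := by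
    conv_lhs => rw [hN']
    rw [natDegree_mul (pow_ne_zero _ X_ne_zero) hN'0, natDegree_X_pow]
  set h := N'.natDegree with hh
  have hfac : N = N' * X ^ v := by rw [hN', mul_comm]
  set m := h + L (v + 2 * h) with hm
  have hbig : (Fintype.card F : ℝ) ^ (-((m : ℤ) + 1)) < absK (fracK (polyK N * Θ.1)) := by
    by_contra hcon
    push Not at hcon
    rw [absK_le_iff] at hcon
    have hann : Ann N' (digits Θ) v (h + L (v + 2 * h)) := by
      intro i h1 h2
      have h3 := hcon (((i - v : ℕ) : ℤ) + 1) (by omega)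
      rw [coeff_frac_mul, act_eq_of_factor hfac] at h3
      have e : v + (i - v) = i := by omega
      rw [e] at h3
      exact h3
    obtain ⟨h', T, hw⟩ := exists_window hLmono hN'0 hann
    exact hno T h' hw
  rw [absK_polyK hN, absT, ← hv]
  -- numerical estimate
  set k := N.natDegree with hk
  have hkpos : 0 < growth lam k := by
    unfold growth
    split_ifs with h0
    · exact one_pos
    · have : (0 : ℝ) < k := by
        have : 0 < k := by omega
        exact_mod_cast this
      positivity
  have hgrow : ((v + 2 * h : ℕ) : ℝ) + 1 ≤ 3 * (if k = 0 then 1 else (k : ℝ)) := by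
    have h1 : v + 2 * h ≤ 2 * k := by omega
    have h2 : ((v + 2 * h : ℕ) : ℝ) ≤ 2 * k := by exact_mod_cast h1
    split_ifs with h0
    · rw [h0] at h2
      push_cast at h2 ⊢
      linarith
    · have : (1 : ℝ) ≤ k := by
        have : 1 ≤ k := by omega
        exact_mod_cast this
      linarith
  have hgrow' : (((v + 2 * h : ℕ) : ℝ) + 1) ^ (1 + lam) ≤ 3 ^ (1 + lam) * growth lam k := by
    calc (((v + 2 * h : ℕ) : ℝ) + 1) ^ (1 + lam)
        ≤ (3 * (if k = 0 then 1 else (k : ℝ))) ^ (1 + lam) := by
          apply Real.rpow_le_rpow (by positivity) hgrow (by linarith)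
      _ = 3 ^ (1 + lam) * growth lam k := by
          rw [Real.mul_rpow (by norm_num) (by split_ifs <;> positivity)]
          unfold growth
          split_ifs
          · rw [Real.one_rpow]
          · rfl
  have hL := hLle (v + 2 * h)
  have hval : growth lam k * (Fintype.card F : ℝ) ^ k * (Fintype.card F : ℝ) ^ (-(v : ℤ)) *
      (Fintype.card F : ℝ) ^ (-((m : ℤ) + 1)) =
      growth lam k / (Fintype.card F * (Fintype.card F : ℝ) ^ L (v + 2 * h)) := by
    rw [hdeg, hm]
    rw [zpow_neg, zpow_neg, zpow_natCast, zpow_add_one₀ hq0.ne', zpow_natCast, pow_add, pow_add]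
    field_simp
  calc 1 / (Fintype.card F * (A * 3 ^ (1 + lam)) : ℝ)
      = growth lam k / (Fintype.card F * (A * (3 ^ (1 + lam) * growth lam k))) := by
        field_simp
    _ ≤ growth lam k / (Fintype.card F * (Fintype.card F : ℝ) ^ L (v + 2 * h)) := by
        apply div_le_div_of_nonneg_left hkpos.le (by positivity)
        apply mul_le_mul_of_nonneg_left _ hq0.le
        refine hL.trans ?_
        apply mul_le_mul_of_nonneg_left hgrow' (by linarith)
    _ = growth lam k * (Fintype.card F : ℝ) ^ k * (Fintype.card F : ℝ) ^ (-(v : ℤ)) *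
      (Fintype.card F : ℝ) ^ (-((m : ℤ) + 1)) := hval.symm
    _ ≤ growth lam k * (Fintype.card F : ℝ) ^ k * (Fintype.card F : ℝ) ^ (-(v : ℤ)) *
      absK (fracK (polyK N * Θ.1)) := by
        apply mul_le_mul_of_nonneg_left hbig.le
        positivity

end Laurent

section Dimension

open MeasureTheory Set Filter Metric

open scoped ENNReal NNReal Topology

variable {F : Type*} [Field F] [Fintype F]

theorem dist_le_inv (x y : II F) : dist x y ≤ (Fintype.card F : ℝ)⁻¹ := by
  have := (dist_le_iff x y 0).mpr (fun i hi => absurd hi (by omega))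
  simpa using this

theorem ediam_le_inv (t : Set (II F)) : ediam t ≤ ENNReal.ofReal (Fintype.card F : ℝ)⁻¹ := by
  refine ediam_le fun x _ y _ => ?_
  rw [edist_dist]
  exact ENNReal.ofReal_le_ofReal (dist_le_inv x y)

theorem ediam_ne_top (t : Set (II F)) : ediam t ≠ ∞ :=
  ne_top_of_le_ne_top ENNReal.ofReal_ne_top (ediam_le_inv t)

/-- Every set is contained in a cylinder of comparable size. -/
theorem exists_cylinder (t : Set (II F)) {s τ : ℝ} (hs : 0 < s) (hτ : 0 < τ) :
    ∃ k : ℕ, (∀ x ∈ t, ∀ y ∈ t, ∀ i < k, digits x i = digits y i) ∧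
      (((Fintype.card F : ℝ) ^ s)⁻¹) ^ k ≤
        (Fintype.card F : ℝ) ^ (2 * s) * (ediam t).toReal ^ s + τ := by
  have hq := card_gt_one (F := F)
  set q : ℝ := (Fintype.card F : ℝ) with hqdef
  have hq0 : 0 < q := by linarith
  set d := (ediam t).toReal with hd
  have hd0 : 0 ≤ d := ENNReal.toReal_nonneg
  have hdist : ∀ x ∈ t, ∀ y ∈ t, dist x y ≤ d := by
    intro x hx y hy
    have h1 := edist_le_ediam_of_mem hx hy
    rw [edist_dist] at h1
    exact (ENNReal.ofReal_le_iff_le_toReal (ediam_ne_top t)).mp h1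
  have hd1 : d ≤ q⁻¹ := by
    have := ENNReal.toReal_mono ENNReal.ofReal_ne_top (ediam_le_inv t)
    rwa [ENNReal.toReal_ofReal (by positivity)] at this
  have hβ1 : 1 < q ^ s := Real.one_lt_rpow hq hs
  have hβinv : (q ^ s)⁻¹ < 1 := inv_lt_one_of_one_lt₀ hβ1
  rcases eq_or_lt_of_le hd0 with h0 | hpos
  · obtain ⟨k, hk⟩ := exists_pow_lt_of_lt_one hτ hβinv
    refine ⟨k, ?_, ?_⟩
    · intro x hx y hy
      rw [← dist_le_iff]
      refine (hdist x hx y hy).trans ?_
      rw [← h0]
      positivity
    · have : 0 ≤ q ^ (2 * s) * d ^ s := by positivity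
      linarith
  · have hx1 : d * q ≤ 1 := by
      calc d * q ≤ q⁻¹ * q := by gcongr
        _ = 1 := inv_mul_cancel₀ hq0.ne'
    obtain ⟨k, hk1, hk2⟩ := exists_nat_pow_near_of_lt_one (x := d * q) (y := q⁻¹) (by positivity)
      hx1 (by positivity) (inv_lt_one_of_one_lt₀ hq)
    refine ⟨k, ?_, ?_⟩
    · intro x hx y hy
      rw [← dist_le_iff]
      refine (hdist x hx y hy).trans ?_
      have e : (q : ℝ) ^ (-((k : ℤ) + 1)) = (q⁻¹) ^ k * q⁻¹ := by
        rw [zpow_neg, zpow_add_one₀ hq0.ne', zpow_natCast, mul_inv, inv_pow]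
      change d ≤ q ^ (-((k : ℤ) + 1))
      rw [e]
      calc d = d * q * q⁻¹ := by field_simp
        _ ≤ (q⁻¹) ^ k * q⁻¹ := by gcongr
    · have h1 : (q⁻¹) ^ k ≤ d * q ^ 2 := by
        rw [pow_succ] at hk1
        have : (q⁻¹) ^ k = (q⁻¹) ^ k * q⁻¹ * q := by field_simp
        rw [this]
        calc (q⁻¹) ^ k * q⁻¹ * q ≤ (d * q) * q := by gcongr
          _ = d * q ^ 2 := by ring
      have h2 : ((q ^ s)⁻¹) ^ k = ((q⁻¹) ^ k) ^ s := by
        rw [← Real.inv_rpow hq0.le, ← Real.rpow_natCast, ← Real.rpow_natCast,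
          ← Real.rpow_mul (by positivity), ← Real.rpow_mul (by positivity), mul_comm]
      rw [h2]
      calc ((q⁻¹) ^ k) ^ s ≤ (d * q ^ 2) ^ s := by
            apply Real.rpow_le_rpow (by positivity) h1 hs.le
        _ = q ^ (2 * s) * d ^ s := by
            rw [Real.mul_rpow hd0 (by positivity), ← Real.rpow_natCast q 2,
              ← Real.rpow_mul hq0.le]
            push_cast
            ring
        _ ≤ q ^ (2 * s) * d ^ s + τ := by linarith

/-- The Hausdorff measure lower bound. -/
theorem hausdorff_ne_zero [MeasurableSpace (II F)] [BorelSpace (II F)] {lam s : ℝ}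
    (hlam : 0 < lam) (hs0 : 0 < s) (hs1 : s < 1) (hs : 1 ≤ s * (1 + lam)) :
    μH[s] (M F (growth lam)) ≠ 0 := by
  classical
  have hq := card_gt_one (F := F)
  set q : ℝ := (Fintype.card F : ℝ) with hqdef
  have hq0 : 0 < q := by linarith
  set β : ℝ := q ^ s with hβdef
  have hβ1 : 1 < β := Real.one_lt_rpow hq hs0
  have hβ0 : 0 < β := by linarith
  have hβq : β < q := by
    calc β = q ^ s := rfl
      _ < q ^ (1 : ℝ) := Real.rpow_lt_rpow_of_exponent_lt hq hs1
      _ = q := Real.rpow_one q
  have hqβ : 0 < q - β := by linarith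
  -- the window lengths
  set A₀ : ℝ := 2 * q / (q - β) with hA₀
  have hA₀1 : 1 < A₀ := by
    rw [hA₀, one_lt_div hqβ]
    linarith
  set A : ℝ := A₀ ^ (1 / s) with hAdef
  have hA1 : 1 < A := Real.one_lt_rpow hA₀1 (by positivity)
  have hAs : A ^ s = A₀ := by
    rw [hAdef, ← Real.rpow_mul (by linarith)]
    rw [one_div_mul_cancel hs0.ne', Real.rpow_one]
  set g : ℕ → ℝ := fun T => A * ((T : ℝ) + 1) ^ (1 + lam) with hg
  have hg1 : ∀ T, 1 < g T := by
    intro T
    have h1 : (1 : ℝ) ≤ ((T : ℝ) + 1) ^ (1 + lam) := by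
      apply Real.one_le_rpow
      · have : (0 : ℝ) ≤ T := Nat.cast_nonneg T
        linarith
      · linarith
    calc (1 : ℝ) < A := hA1
      _ = A * 1 := (mul_one A).symm
      _ ≤ g T := by
        simp only [hg]
        gcongr
  have hgmono : Monotone g := by
    intro T T' h
    simp only [hg]
    gcongr
  set L : ℕ → ℕ := fun T => ⌈Real.logb q (g T)⌉₊ with hL
  have hLmono : Monotone L := by
    intro T T' h
    simp only [hL]
    apply Nat.ceil_mono
    apply Real.logb_le_logb_of_le hq
    · linarith [hg1 T]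
    · exact hgmono h
  have hlog0 : ∀ T, 0 < Real.logb q (g T) := fun T => Real.logb_pos hq (hg1 T)
  have hL1 : ∀ T, 1 ≤ L T := by
    intro T
    simp only [hL]
    exact Nat.one_le_iff_ne_zero.mpr (Nat.ceil_pos.mpr (hlog0 T)).ne'
  have hLge : ∀ T, g T ≤ q ^ L T := by
    intro T
    have h1 : Real.logb q (g T) ≤ (L T : ℝ) := Nat.le_ceil _
    rw [Real.logb_le_iff_le_rpow hq (by linarith [hg1 T])] at h1
    rwa [Real.rpow_natCast] at h1
  have hLle : ∀ T : ℕ, q ^ L T ≤ (q * A) * ((T : ℝ) + 1) ^ (1 + lam) := by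
    intro T
    have h1 : (L T : ℝ) < Real.logb q (g T) + 1 := Nat.ceil_lt_add_one (hlog0 T).le
    have h2 : q ^ ((L T : ℝ) - 1) ≤ g T := by
      rw [← Real.le_logb_iff_rpow_le hq (by linarith [hg1 T])]
      linarith
    have h3 : (q : ℝ) ^ L T = q ^ ((L T : ℝ) - 1) * q := by
      rw [Real.rpow_sub_one hq0.ne', Real.rpow_natCast]
      field_simp
    rw [h3]
    calc q ^ ((L T : ℝ) - 1) * q ≤ g T * q := by gcongr
      _ = (q * A) * ((T : ℝ) + 1) ^ (1 + lam) := by
        simp only [hg]
        ring
  have hW : ∀ T : ℕ, ((T / 2 + 1 : ℕ) : ℝ) ≤ (q - β) / 2 * β ^ (L T - 1) := by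
    intro T
    have h1 : A₀ * ((T : ℝ) + 1) ≤ β ^ L T := by
      have e : β ^ L T = (q ^ L T) ^ s := by
        rw [hβdef, ← Real.rpow_natCast, ← Real.rpow_natCast, ← Real.rpow_mul hq0.le,
          ← Real.rpow_mul hq0.le, mul_comm]
      rw [e]
      calc A₀ * ((T : ℝ) + 1) = A ^ s * ((T : ℝ) + 1) ^ (1 : ℝ) := by rw [hAs, Real.rpow_one]
        _ ≤ A ^ s * ((T : ℝ) + 1) ^ (s * (1 + lam)) := by
          apply mul_le_mul_of_nonneg_left _ (by positivity)
          apply Real.rpow_le_rpow_of_exponent_le _ hs
          have : (0 : ℝ) ≤ T := Nat.cast_nonneg T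
          linarith
        _ = (g T) ^ s := by
          have e1 : ((T : ℝ) + 1) ^ (s * (1 + lam)) = (((T : ℝ) + 1) ^ (1 + lam)) ^ s := by
            rw [← Real.rpow_mul (by positivity), mul_comm]
          simp only [hg]
          rw [e1, Real.mul_rpow (by positivity) (by positivity)]
        _ ≤ (q ^ L T) ^ s := by
          apply Real.rpow_le_rpow (by linarith [hg1 T]) (hLge T) hs0.le
    have h2 : β ^ L T = β ^ (L T - 1) * β := by
      rw [← pow_succ]
      congr 1
      have := hL1 T
      omega
    have h3 : A₀ * ((T : ℝ) + 1) ≤ β ^ (L T - 1) * q := by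
      rw [h2] at h1
      refine h1.trans ?_
      gcongr
    have h4 : (T : ℝ) + 1 ≤ (q - β) / 2 * β ^ (L T - 1) := by
      rw [hA₀, div_mul_eq_mul_div, div_le_iff₀ hqβ] at h3
      have h5 : 2 * ((T : ℝ) + 1) ≤ β ^ (L T - 1) * (q - β) := by
        have h6 : q * (2 * ((T : ℝ) + 1)) ≤ q * (β ^ (L T - 1) * (q - β)) := by linarith
        exact le_of_mul_le_mul_left h6 hq0
      linarith
    have h5 : ((T / 2 + 1 : ℕ) : ℝ) ≤ (T : ℝ) + 1 := by
      have : T / 2 + 1 ≤ T + 1 := by omega
      exact_mod_cast this
    linarith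
  -- suppose the measure vanishes
  intro hzero
  set ε : ℝ := min (1 / 2) ((q - β) / (2 * β)) with hε
  have hε0 : 0 < ε := by positivity
  have hε1 : ε < 1 := lt_of_le_of_lt (min_le_left _ _) (by norm_num)
  rw [Measure.hausdorffMeasure_apply] at hzero
  have hz1 := (ENNReal.iSup_eq_zero.mp ((ENNReal.iSup_eq_zero.mp hzero) 1)) one_pos
  set ε₁ : ℝ := ε / (2 * q ^ (2 * s)) with hε₁
  have hε₁0 : 0 < ε₁ := by positivity
  have hlt : (⨅ (t : ℕ → Set (II F)) (_ : M F (growth lam) ⊆ ⋃ n, t n)
      (_ : ∀ n, ediam (t n) ≤ 1), ∑' n, ⨆ _ : (t n).Nonempty, ediam (t n) ^ s) <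
      ENNReal.ofReal ε₁ := by
    rw [hz1]
    exact ENNReal.ofReal_pos.mpr hε₁0
  rw [iInf_lt_iff] at hlt
  obtain ⟨t, hlt⟩ := hlt
  rw [iInf_lt_iff] at hlt
  obtain ⟨hcov, hlt⟩ := hlt
  rw [iInf_lt_iff] at hlt
  obtain ⟨-, hsum⟩ := hlt
  obtain ⟨τ, hτ0, hτsum⟩ := ENNReal.exists_pos_sum_of_countable
    (ε := ENNReal.ofReal (ε / 2)) (ENNReal.ofReal_pos.mpr (by positivity)).ne' ℕ
  have hcyl : ∀ n, ∃ k : ℕ, (∀ x ∈ t n, ∀ y ∈ t n, ∀ i < k, digits x i = digits y i) ∧
      (β⁻¹) ^ k ≤ q ^ (2 * s) * (ediam (t n)).toReal ^ s + τ n :=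
    fun n => exists_cylinder (t n) hs0 (NNReal.coe_pos.mpr (hτ0 n))
  choose k hk1 hk2 using hcyl
  -- total cost
  set cost : ℕ → ℝ≥0∞ := fun n => if (t n).Nonempty then ENNReal.ofReal ((β⁻¹) ^ k n) else 0
    with hcost
  have hcosttot : ∑' n, cost n < ENNReal.ofReal ε := by
    have h1 : ∀ n, cost n ≤ ENNReal.ofReal (q ^ (2 * s)) * (⨆ _ : (t n).Nonempty, ediam (t n) ^ s)
        + τ n := by
      intro n
      simp only [hcost]
      split_ifs with hne
      · simp only [hne, iSup_pos]
        calc ENNReal.ofReal ((β⁻¹) ^ k n)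
            ≤ ENNReal.ofReal (q ^ (2 * s) * (ediam (t n)).toReal ^ s + τ n) :=
              ENNReal.ofReal_le_ofReal (hk2 n)
          _ = ENNReal.ofReal (q ^ (2 * s)) * ediam (t n) ^ s + τ n := by
              rw [ENNReal.ofReal_add (by positivity) (by positivity),
                ENNReal.ofReal_mul (by positivity), ENNReal.ofReal_coe_nnreal,
                ← ENNReal.ofReal_rpow_of_nonneg ENNReal.toReal_nonneg hs0.le,
                ENNReal.ofReal_toReal (ediam_ne_top _)]
      · exact zero_le
    calc ∑' n, cost n ≤ ∑' n, (ENNReal.ofReal (q ^ (2 * s)) *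
          (⨆ _ : (t n).Nonempty, ediam (t n) ^ s) + τ n) := ENNReal.tsum_le_tsum h1
      _ = ENNReal.ofReal (q ^ (2 * s)) * (∑' n, ⨆ _ : (t n).Nonempty, ediam (t n) ^ s) +
          ∑' n, (τ n : ℝ≥0∞) := by
          rw [ENNReal.tsum_add, ENNReal.tsum_mul_left]
      _ < ENNReal.ofReal (q ^ (2 * s)) * ENNReal.ofReal ε₁ + ENNReal.ofReal (ε / 2) := by
          apply ENNReal.add_lt_add
          · exact ENNReal.mul_lt_mul_right (ENNReal.ofReal_pos.mpr (by positivity)).ne'
              ENNReal.ofReal_ne_top hsum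
          · exact hτsum
      _ = ENNReal.ofReal ε := by
          rw [← ENNReal.ofReal_mul (by positivity), ← ENNReal.ofReal_add (by positivity)
            (by positivity)]
          congr 1
          rw [hε₁]
          field_simp
          norm_num
  -- the words to avoid
  set C : ∀ n, Finset (Fin n → F) := fun m => Finset.univ.filter fun w =>
    ∃ n, k n = m ∧ ∃ x ∈ t n, w = res m (digits x) with hC
  have hCcard : ∀ m, ((C m).card : ℝ) * (β⁻¹) ^ m < ε := by
    intro m
    have hch : ∀ w ∈ C m, ∃ n, k n = m ∧ ∃ x ∈ t n, w = res m (digits x) := by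
      intro w hw
      simpa [hC] using hw
    choose! φ hφ using hch
    have hinj : Set.InjOn φ (C m : Set (Fin m → F)) := by
      intro w hw w' hw' heq
      obtain ⟨h1, x, hx, hwx⟩ := hφ w hw
      obtain ⟨h2, x', hx', hwx'⟩ := hφ w' hw'
      rw [← heq] at hx'
      rw [hwx, hwx']
      funext i
      exact hk1 _ x hx x' hx' i (by rw [h1]; exact i.2)
    have h1 : ((C m).card : ℝ≥0∞) * ENNReal.ofReal ((β⁻¹) ^ m) ≤ ∑' n, cost n := by
      calc ((C m).card : ℝ≥0∞) * ENNReal.ofReal ((β⁻¹) ^ m)
          = ∑ w ∈ C m, ENNReal.ofReal ((β⁻¹) ^ m) := by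
            rw [Finset.sum_const, nsmul_eq_mul]
        _ = ∑ w ∈ C m, cost (φ w) := by
            refine Finset.sum_congr rfl fun w hw => ?_
            obtain ⟨h1, x, hx, -⟩ := hφ w hw
            simp only [hcost]
            rw [if_pos ⟨x, hx⟩, h1]
        _ = ∑ n ∈ (C m).image φ, cost n := by
            rw [Finset.sum_image hinj]
        _ ≤ ∑' n, cost n := ENNReal.sum_le_tsum _
    have h2 := h1.trans_lt hcosttot
    rw [← ENNReal.ofReal_natCast, ← ENNReal.ofReal_mul (by positivity)] at h2
    exact (ENNReal.ofReal_lt_ofReal_iff hε0).mp h2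
  have hC0 : C 0 = ∅ := by
    have h1 := hCcard 0
    rw [pow_zero, mul_one] at h1
    have h2 : ((C 0).card : ℝ) < 1 := h1.trans hε1
    have h3 : (C 0).card < 1 := by exact_mod_cast h2
    exact Finset.card_eq_zero.mp (by omega)
  have hCn : ∀ n, ((C (n + 1)).card : ℝ) ≤ (q - β) / 2 * β ^ n := by
    intro n
    have h1 := (hCcard (n + 1)).le
    rw [inv_pow, ← div_eq_mul_inv, div_le_iff₀ (by positivity)] at h1
    have h2 : ε ≤ (q - β) / (2 * β) := min_le_right _ _
    calc ((C (n + 1)).card : ℝ) ≤ ε * β ^ (n + 1) := h1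
      _ ≤ (q - β) / (2 * β) * β ^ (n + 1) := by gcongr
      _ = (q - β) / 2 * β ^ n := by
        rw [pow_succ]
        field_simp
  have hgrow := growth_step L hLmono hL1 C hC0 β hβ1.le hβq hW hCn
  have hne : ∀ n, (Gd (BadEv L C) n).Nonempty := by
    intro n
    have h1 := (hgrow n).1
    have h2 : (0 : ℝ) < (Gd (BadEv L C) n).card := lt_of_lt_of_le (by positivity) h1
    exact Finset.card_pos.mp (by exact_mod_cast h2)
  obtain ⟨u, hu⟩ := exists_good_seq (BadEv L C) (badEv_local L C) hne
  have hmem : ofDigits u ∈ M F (growth lam) := by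
    refine mem_M_of_no_window lam (q * A) hlam ?_ L hLmono hLle _ ?_
    · nlinarith
    · intro T h hw
      rw [digits_ofDigits] at hw
      exact hu (T + L T) (Or.inl ⟨T, h, rfl, hw⟩)
  obtain ⟨n, hn⟩ := mem_iUnion.mp (hcov hmem)
  apply hu (k n)
  right
  simp only [hC, Finset.mem_filter, Finset.mem_univ, true_and]
  refine ⟨n, rfl, ofDigits u, hn, ?_⟩
  rw [digits_ofDigits]

/-- The whole ball has dimension at most one. -/
theorem dimH_le_one (S : Set (II F)) : dimH S ≤ 1 := by
  borelize (II F)
  have hq := card_gt_one (F := F)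
  set q : ℝ := (Fintype.card F : ℝ) with hqdef
  have hq0 : 0 < q := by linarith
  have hfin : μH[((1 : ℝ≥0) : ℝ)] S ≠ ∞ := by
    have h1 := Measure.hausdorffMeasure_le_liminf_sum (X := II F) (β := ℕ)
      (ι := fun n => Fin n → F) ((1 : ℝ≥0) : ℝ) S (l := atTop)
      (fun n => ENNReal.ofReal ((q⁻¹) ^ n)) (by
        rw [← ENNReal.ofReal_zero]
        exact ENNReal.tendsto_ofReal (tendsto_pow_atTop_nhds_zero_of_lt_one (by positivity)
          (inv_lt_one_of_one_lt₀ hq)))
      (fun n w => {x : II F | res n (digits x) = w}) (by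
        refine Eventually.of_forall fun n w => ediam_le fun x hx y hy => ?_
        rw [edist_dist]
        apply ENNReal.ofReal_le_ofReal
        have h2 : dist x y ≤ q ^ (-((n : ℤ) + 1)) := by
          rw [hqdef, dist_le_iff]
          intro i hi
          have h3 : res n (digits x) = res n (digits y) := by
            rw [mem_ofPred_eq] at hx hy
            rw [hx, hy]
          exact congrFun h3 ⟨i, hi⟩
        refine h2.trans ?_
        rw [zpow_neg, zpow_add_one₀ hq0.ne', zpow_natCast, inv_pow]
        apply inv_anti₀ (by positivity)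
        exact le_mul_of_one_le_right (by positivity) hq.le)
      (by
        refine Eventually.of_forall fun n x _ => ?_
        rw [mem_iUnion]
        exact ⟨res n (digits x), rfl⟩)
    refine ne_top_of_le_ne_top (b := 1) ENNReal.one_ne_top (h1.trans ?_)
    refine liminf_le_of_frequently_le' (Frequently.of_forall fun n => ?_)
    calc ∑ w : Fin n → F, ediam {x : II F | res n (digits x) = w} ^ (((1 : ℝ≥0) : ℝ))
        ≤ ∑ w : Fin n → F, ENNReal.ofReal ((q⁻¹) ^ n) := by
          refine Finset.sum_le_sum fun w _ => ?_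
          rw [NNReal.coe_one, ENNReal.rpow_one]
          refine ediam_le fun x hx y hy => ?_
          rw [edist_dist]
          apply ENNReal.ofReal_le_ofReal
          have h2 : dist x y ≤ q ^ (-((n : ℤ) + 1)) := by
            rw [hqdef, dist_le_iff]
            intro i hi
            have h3 : res n (digits x) = res n (digits y) := by
              rw [mem_ofPred_eq] at hx hy
              rw [hx, hy]
            exact congrFun h3 ⟨i, hi⟩
          refine h2.trans ?_
          rw [zpow_neg, zpow_add_one₀ hq0.ne', zpow_natCast, inv_pow]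
          apply inv_anti₀ (by positivity)
          exact le_mul_of_one_le_right (by positivity) hq.le
      _ = 1 := by
          rw [Finset.sum_const, Finset.card_univ, Fintype.card_fun, Fintype.card_fin,
            nsmul_eq_mul, ← ENNReal.ofReal_natCast, ← ENNReal.ofReal_mul (by positivity)]
          push_cast
          rw [← hqdef, inv_pow, mul_inv_cancel₀ (by positivity), ENNReal.ofReal_one]
  exact dimH_le_of_hausdorffMeasure_ne_top hfin

end Dimension

open scoped ENNReal NNReal in
/-- **The answer to Q1 is negative.**  For every finite field `F = 𝔽_q` and every `lam > 0` the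
set of counterexamples to the `t`-adic Littlewood conjecture with growth function
`log ^ (1 + lam)` has full Hausdorff dimension `1`. -/
theorem result (F : Type*) [Field F] [Fintype F] (lam : ℝ) (hlam : 0 < lam) :
    dimH (M F (growth lam)) = 1 := by
  apply le_antisymm (dimH_le_one _)
  refine ENNReal.le_of_forall_nnreal_lt fun r hr => ?_
  borelize (II F)
  have hr1 : r < 1 := by exact_mod_cast hr
  have hl1 : (1 : ℝ) / (1 + lam) < 1 := by
    rw [div_lt_one (by linarith)]
    linarith
  set s : ℝ≥0 := max r (Real.toNNReal (1 / (1 + lam))) with hsdef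
  have hs1 : s < 1 := by
    apply max_lt hr1
    rw [← NNReal.coe_lt_coe, Real.coe_toNNReal _ (by positivity)]
    exact hl1
  have hsge : (1 : ℝ) / (1 + lam) ≤ s := by
    rw [hsdef, NNReal.coe_max, Real.coe_toNNReal _ (by positivity)]
    exact le_max_right _ _
  have hs0 : (0 : ℝ) < s := lt_of_lt_of_le (by positivity) hsge
  have hsl : 1 ≤ (s : ℝ) * (1 + lam) := by
    rw [div_le_iff₀ (by linarith)] at hsge
    exact hsge
  have h1 := le_dimH_of_hausdorffMeasure_ne_zero
    (hausdorff_ne_zero (F := F) hlam hs0 (by exact_mod_cast hs1) hsl)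
  refine le_trans ?_ h1
  exact_mod_cast le_max_left _ _

end Pool.H62.MV.FullDimension
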